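import Pool.Agent.Helper5.UN.Goals
import Pool.Agent.Helper18.RO.HVAL

/-!
# Project UN (MP_a41896_nt), packet EST: the main estimate
-/

namespace Pool.Agent.Helper51.UN.EST

open WeierstrassCurve Height Height.AdmissibleAbsValues MvPolynomial
open Pool.Agent.Helper29.BL Pool.Agent.Helper5.RO Pool.Agent.Helper5.UN
open Pool.Agent.Helper18.RO

set_option linter.unusedSectionVars false

noncomputable section

/-! ## Ring homomorphisms -/

section rings

variable {R S T : Type} [CommRing R] [CommRing S] [CommRing T]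

theorem map_pr (g : S →+* T) {n : ℕ} (a : EE n → Bool) (ζ : EE n → S) (e : EE n) (j : Fin 2) :
    g (pr a ζ e j) = pr a (fun e => g (ζ e)) e j := by
  unfold pr
  split_ifs <;> fin_cases j <;> simp

theorem map_dad (φ : R →+* S) (g : S →+* T) (W : WeierstrassCurve R) (P Q : Fin 2 → S) (b : Bool)
    (r : Fin 2 → S) (j : Fin 2) :
    g (dad φ W P Q b r j) =
      dad (g.comp φ) W (fun i => g (P i)) (fun i => g (Q i)) b (fun i => g (r i)) j := by
  have h : ∀ i, g (asm φ W (sy P Q) i) =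
      asm (g.comp φ) W (sy (fun i => g (P i)) (fun i => g (Q i))) i := by
    intro i
    rw [map_asm]
    congr 1
    funext k
    rw [map_sy]
  unfold dad
  split_ifs <;> fin_cases j <;> simp [h]

theorem map_rp (φ : R →+* S) (g : S →+* T) (W : WeierstrassCurve R) {n : ℕ} (a : EE n → Bool)
    (ζ : EE n → S) (k : ℕ) : ∀ (m : Fin n → ℤ) (j : Fin 2),
    g (rp φ W a ζ k m j) = rp (g.comp φ) W a (fun e => g (ζ e)) k m j := by
  induction k with
  | zero =>
    intro m j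
    exact map_pr g a ζ _ j
  | succ k ih =>
    intro m j
    unfold rp
    rw [map_dad]
    have h1 : (fun i => g (rp φ W a ζ k (fun i => m i / 2) i)) =
        rp (g.comp φ) W a (fun e => g (ζ e)) k (fun i => m i / 2) := by
      funext i
      exact ih _ i
    have h2 : (fun i => g (rp φ W a ζ k (fun i => m i - m i / 2) i)) =
        rp (g.comp φ) W a (fun e => g (ζ e)) k (fun i => m i - m i / 2) := by
      funext i
      exact ih _ i
    have h3 : (fun i => g (pr a ζ (sg fun i => m i - m i / 2 - m i / 2) i)) =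
        pr a (fun e => g (ζ e)) (sg fun i => m i - m i / 2 - m i / 2) := by
      funext i
      exact map_pr g a ζ _ i
    rw [h1, h2, h3]

end rings

/-! ## Absolute values -/

section av

variable {K : Type} [Field K]

theorem max_xRep {W : Affine K} (v : AbsoluteValue K ℝ) (P : W.Point) :
    max (v (P.xRep 0)) (v (P.xRep 1)) = Mv v (xc P) := by
  rcases P with _ | ⟨x, y, h⟩
  · change max (v (1 : K)) (v (0 : K)) = max 1 (v (0 : K))
    simp
  · change max (v x) (v (1 : K)) = max 1 (v x)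
    rw [map_one, max_comm]

theorem max_smul (v : AbsoluteValue K ℝ) (σ : K) (y : Fin 2 → K) :
    max (v ((σ • y) 0)) (v ((σ • y) 1)) = v σ * max (v (y 0)) (v (y 1)) := by
  simp only [Pi.smul_apply, smul_eq_mul, map_mul]
  rw [mul_max_of_nonneg _ _ (v.nonneg _)]

theorem max_pr (v : AbsoluteValue K ℝ) {n : ℕ} (a : EE n → Bool) (ζ : EE n → K)
    (h : ∀ e, v (ζ e) ≤ 1) (e : EE n) : max (v (pr a ζ e 0)) (v (pr a ζ e 1)) = 1 := by
  unfold pr
  split_ifs
  · simpa using h e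
  · simpa using h e

variable [AdmissibleAbsValues K]

/-- Evaluation at integral points. -/
theorem ev_int {σ : Type} (p : MvPolynomial σ K) :
    ∃ c : AbsoluteValue K ℝ → ℝ, FS c ∧ (∀ v, 0 ≤ c v) ∧
      ∀ v (ζ : σ → K), (∀ i, v (ζ i) ≤ 1) → v (aeval ζ p) ≤ Real.exp (c v) := by
  classical
  refine ⟨fun v => Real.log (cst v (p.support.card + 1)) +
    ∑ m ∈ p.support, Real.posLog (v (coeff m p)), ?_, ?_, ?_⟩
  · exact (FS_log_cst _).add (FS.sum _ fun m _ => FS_posLog _)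
  · intro v
    have h1 : (1 : ℝ) ≤ (p.support.card : ℝ) + 1 := by
      have : (0 : ℝ) ≤ (p.support.card : ℝ) := Nat.cast_nonneg _
      linarith
    exact add_nonneg (Real.log_nonneg (one_le_cst v h1))
      (Finset.sum_nonneg fun _ _ => Real.posLog_nonneg)
  · intro v x hx
    have h1 : (1 : ℝ) ≤ (p.support.card : ℝ) + 1 := by
      have : (0 : ℝ) ≤ (p.support.card : ℝ) := Nat.cast_nonneg _
      linarith
    rw [Real.exp_add, Real.exp_log (cst_pos v h1), aeval_def, eval₂_eq]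
    refine abv_sum_le v _ _ (Real.exp_pos _).le (fun m hm => ?_) (by linarith)
    rw [map_mul, Algebra.algebraMap_self, RingHom.id_apply]
    have h2 : Real.posLog (v (coeff m p)) ≤ ∑ m ∈ p.support, Real.posLog (v (coeff m p)) :=
      Finset.single_le_sum (f := fun m => Real.posLog (v (coeff m p)))
        (fun _ _ => Real.posLog_nonneg) hm
    have h3 : v (coeff m p) ≤ Real.exp (Real.posLog (v (coeff m p))) := by
      rcases eq_or_lt_of_le (v.nonneg (coeff m p)) with h0 | h0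
      · rw [← h0]; exact (Real.exp_pos _).le
      · conv_lhs => rw [← Real.exp_log h0]
        exact Real.exp_le_exp.2 (le_max_right _ _)
    have h4 : v (∏ i ∈ m.support, x i ^ m i) ≤ 1 := by
      rw [map_prod]
      refine Finset.prod_le_one (fun i _ => v.nonneg _) fun i _ => ?_
      rw [map_pow]
      exact pow_le_one₀ (v.nonneg _) (hx i)
    calc v (coeff m p) * v (∏ i ∈ m.support, x i ^ m i) ≤ v (coeff m p) * 1 :=
          mul_le_mul_of_nonneg_left h4 (v.nonneg _)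
      _ = v (coeff m p) := mul_one _
      _ ≤ _ := h3.trans (Real.exp_le_exp.2 h2)

end av

theorem one_le_prod_real {ι : Type} (s : Finset ι) (f : ι → ℝ) (h : ∀ i ∈ s, 1 ≤ f i) :
    1 ≤ ∏ i ∈ s, f i := by
  calc (1 : ℝ) = ∏ _i ∈ s, 1 := by simp
    _ ≤ ∏ i ∈ s, f i := Finset.prod_le_prod (fun _ _ => zero_le_one) h

/-- The final inequality at one place. -/
theorem final {A S U c₃ c₄ : ℝ} {V L : ℝ} (hA : 1 ≤ A) (hS : 0 ≤ S) (hU : 0 < U) (hL : U = Real.exp L)
    (hV : 0 < V) (h1 : V * A ≤ Real.exp c₃ * S * U) (h2 : V ≤ Real.exp c₄ * U) (hc₃ : 0 ≤ c₃)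
    (hc₄ : 0 ≤ c₄) : Real.posLog (A / S) ≤ (c₃ + c₄) + L - Real.log V := by
  have e2 : Real.log V ≤ c₄ + L := by
    have := Real.log_le_log hV h2
    rwa [hL, Real.log_mul (Real.exp_pos _).ne' (Real.exp_pos _).ne', Real.log_exp, Real.log_exp] at this
  rw [Real.posLog]
  refine max_le (by linarith) ?_
  rcases eq_or_lt_of_le hS with h0 | h0
  · rw [← h0, div_zero, Real.log_zero]; linarith
  · have h3 : A / S ≤ Real.exp c₃ * U / V := by
      rw [div_le_div_iff₀ h0 hV]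
      nlinarith
    have hA0 : 0 < A := by linarith
    have := Real.log_le_log (by positivity) h3
    rw [Real.log_div (by positivity) hV.ne', Real.log_mul (Real.exp_pos _).ne' hU.ne', hL,
      Real.log_exp, Real.log_exp] at this
    linarith

section main

variable {K : Type} [Field K] [AdmissibleAbsValues K] [DecidableEq K] {B : Type} [Fintype B]
  {W : B → Affine K} [∀ t, (W t).IsElliptic] {n : B → ℕ}

/-- `aeval ζ (ft f)` at an integral chart point. -/
theorem ft_val (hHVB : G_HVB) (D : ℕ) (f : MvPolynomial (IX n) K) (hf : ∀ i, degreeOf i f ≤ D)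
    (v : AbsoluteValue K ℝ) (a : ∀ t, EE (n t) → Bool) (ζ : VX n → K)
    (z : ∀ t, Fin (n t) → (W t).Point) (hz : ∀ t i, z t i ≠ 0)
    (hζ : ∀ p, v (ζ p) ≤ 1) (hT : ∀ t, TP (a t) (fun e => ζ ⟨t, e⟩) (z t))
    (hun : ∀ t i, vz (vec (un i)) (z t) = z t i) :
    v (aeval ζ (ft n a D f)) * (∏ i : IX n, Mv v (xc (z i.1 i.2))) ^ D =
      v (eval (fun i : IX n => xc (z i.1 i.2)) f) := by
  obtain ⟨-, -, h3, h4, h5, -, -⟩ := hHVB
  have e1 : aeval ζ (ft n a D f) = hv (RingHom.id K) (fun _ => D) f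
      (fun i => pr (a i.1) (fun e => ζ ⟨i.1, e⟩) (un i.2)) := by
    have e0 := h5 K (MvPolynomial (VX n) K) K C (aeval ζ : MvPolynomial (VX n) K →ₐ[K] K).toRingHom
      (IX n) (fun _ => D) f (fun i => pr (a i.1) (fun e => X ⟨i.1, e⟩) (un i.2))
    have e00 : ((aeval ζ : MvPolynomial (VX n) K →ₐ[K] K).toRingHom).comp C = RingHom.id K := by
      ext x
      simp
    rw [e00] at e0
    refine (show aeval ζ (ft n a D f) = _ from e0).trans ?_
    congr 1
    funext i j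
    rw [map_pr]
    simp
  choose κ hκ hκ' using fun i : IX n => hT i.1 (un i.2)
  have e2 : (fun i : IX n => pr (a i.1) (fun e => ζ ⟨i.1, e⟩) (un i.2)) =
      fun i => κ i • (![xc (z i.1 i.2), 1] : Fin 2 → K) := by
    funext i
    rw [hκ' i, hun, xRep_of_ne_zero (hz i.1 i.2)]
  have e3 : ∀ i, v (κ i) * Mv v (xc (z i.1 i.2)) = 1 := by
    intro i
    rw [← max_xRep, ← hun i.1 i.2, ← max_smul, ← hκ' i]
    exact max_pr v _ _ (fun e => hζ _) _
  rw [e1, e2, h3 K K (RingHom.id K) (IX n) (fun _ => D) f κ _ hf, h4, map_mul, map_prod]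
  have e4 : (∏ i : IX n, v (κ i ^ D)) * (∏ i : IX n, Mv v (xc (z i.1 i.2))) ^ D = 1 := by
    rw [← Finset.prod_pow, ← Finset.prod_mul_distrib]
    refine Finset.prod_eq_one fun i _ => ?_
    rw [map_pow, ← mul_pow, e3 i, one_pow]
  rw [mul_right_comm, e4, one_mul]
  rfl

/-- `aeval ζ (Ft F)` at an integral chart point. -/
theorem Ft_val (hHVB : G_HVB) (m : ∀ t, Fin (n t) → Fin (n t) → ℤ) (E : IX n → ℕ)
    (F : MvPolynomial (IX n) K) (a : ∀ t, EE (n t) → Bool) (ζ : VX n → K) :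
    aeval ζ (Ft W n a E m F) = hv (RingHom.id K) E F
      (fun i => rp (RingHom.id K) (W i.1) (a i.1) (fun e => ζ ⟨i.1, e⟩) (lv (m i.1 i.2)) (m i.1 i.2)) := by
  obtain ⟨-, -, -, -, h5, -, -⟩ := hHVB
  have e0 := h5 K (MvPolynomial (VX n) K) K C (aeval ζ : MvPolynomial (VX n) K →ₐ[K] K).toRingHom
    (IX n) E F (fun i => rp C (W i.1) (a i.1) (fun e => X ⟨i.1, e⟩) (lv (m i.1 i.2)) (m i.1 i.2))
  have e00 : ((aeval ζ : MvPolynomial (VX n) K →ₐ[K] K).toRingHom).comp C = RingHom.id K := by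
    ext x
    simp
  rw [e00] at e0
  refine (show aeval ζ (Ft W n a E m F) = _ from e0).trans ?_
  congr 1
  funext i j
  rw [map_rp, e00]
  simp

/-- The main estimate at one place. -/
theorem local_est (hHVB : G_HVB) (hVAL : G_VAL) (hLSZ : G_LSZ) (hCHT : G_CHT) (hDEGR : G_DEGR)
    (ι : Type) [Fintype ι] (D : ℕ) (f : ι → MvPolynomial (IX n) K)
    (hf : ∀ j i, degreeOf i (f j) ≤ D) (m : ∀ t, Fin (n t) → Fin (n t) → ℤ) (E : IX n → ℕ)
    (F : MvPolynomial (IX n) K) (hF : ∀ i, degreeOf i F ≤ E i)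
    (hFt : ∀ a, Ft W n a E m F ∈ IA W n a D f) :
    ∃ c : AbsoluteValue K ℝ → ℝ, FS c ∧ (∀ v, 0 ≤ c v) ∧
      ∀ (v : AbsoluteValue K ℝ) (z : ∀ t, Fin (n t) → (W t).Point), (∀ t i, z t i ≠ 0) →
      v (hv (RingHom.id K) E F (fun i => (vz (m i.1 i.2) (z i.1)).xRep)) *
          (∏ i : IX n, Mv v (xc (z i.1 i.2))) ^ D ≤
        Real.exp (c v) * (⨆ j, v (eval (fun i : IX n => xc (z i.1 i.2)) (f j))) *
          ∏ i : IX n, Mv v (xc (vz (m i.1 i.2) (z i.1))) ^ E i := by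
  classical
  -- the constants
  choose g hg h' hh' hgh using fun a => Submodule.mem_sup.1 (hFt a)
  choose h hh using fun a => Ideal.mem_span_range_iff_exists_fun.1 (hh' a)
  choose c₁ hc₁ hc₁0 hc₁v using fun (p : (∀ t, EE (n t) → Bool) × ι) => ev_int (h p.1 p.2)
  choose c₂ hc₂ hc₂0 hc₂v using fun i : IX n => hLSZ K (W i.1) (n i.1) (lv (m i.1 i.2))
  have hcard : (1 : ℝ) ≤ (Fintype.card ι : ℝ) + 1 := by
    have : (0 : ℝ) ≤ (Fintype.card ι : ℝ) := Nat.cast_nonneg _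
    linarith
  refine ⟨fun v => (Real.log (cst v (Fintype.card ι + 1)) + ∑ p, c₁ p v) + ∑ i, (E i : ℝ) * c₂ i v,
    ?_, ?_, ?_⟩
  · exact ((FS_log_cst _).add (FS.sum _ fun p _ => hc₁ p)).add
      (FS.sum _ fun i _ => (hc₂ i).const_mul _)
  · intro v
    exact add_nonneg (add_nonneg (Real.log_nonneg (one_le_cst v hcard))
      (Finset.sum_nonneg fun p _ => hc₁0 p v))
      (Finset.sum_nonneg fun i _ => mul_nonneg (Nat.cast_nonneg _) (hc₂0 i v))
  intro v z hz
  -- the chart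
  choose a ζ' hT hζ using fun t => (hCHT K (W t) (n t) (z t)).1 v
  set ζ : VX n → K := fun p => ζ' p.1 p.2 with hζdef
  have hT' : ∀ t, TP (a t) (fun e => ζ ⟨t, e⟩) (z t) := hT
  have hζ' : ∀ p, v (ζ p) ≤ 1 := fun p => hζ p.1 p.2
  set M : ℝ := (∏ i : IX n, Mv v (xc (z i.1 i.2))) ^ D with hM
  have hM0 : 0 < M := pow_pos (Finset.prod_pos fun i _ => Mv_pos v _) _
  set S : ℝ := ⨆ j, v (eval (fun i : IX n => xc (z i.1 i.2)) (f j)) with hS
  have hS0 : 0 ≤ S := Real.iSup_nonneg fun _ => v.nonneg _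
  -- the value of `Ft`
  have e1 : aeval ζ (Ft W n a E m F) = ∑ j, aeval ζ (h a j) * aeval ζ (ft n a D (f j)) := by
    rw [← hgh a, map_add, ← hh a, map_sum]
    have : aeval ζ (g a) = 0 := hg a K W (fun t => rfl) z ζ hT'
    rw [this, zero_add]
    exact Finset.sum_congr rfl fun j _ => map_mul _ _ _
  have e2 : v (aeval ζ (Ft W n a E m F)) * M ≤
      cst v (Fintype.card ι + 1) * (Real.exp (∑ p, c₁ p v) * S) := by
    have e3 : v (aeval ζ (Ft W n a E m F)) ≤
        cst v (Fintype.card ι + 1) * (Real.exp (∑ p, c₁ p v) * (S / M)) := by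
      rw [e1]
      refine abv_sum_le v _ _ (by positivity) (fun j _ => ?_) (by simp)
      rw [map_mul]
      refine mul_le_mul ?_ ?_ (v.nonneg _) (Real.exp_pos _).le
      · refine (hc₁v (a, j) v ζ hζ').trans (Real.exp_le_exp.2 ?_)
        exact Finset.single_le_sum (f := fun p => c₁ p v) (fun p _ => hc₁0 p v)
          (Finset.mem_univ (a, j))
      · rw [le_div_iff₀ hM0, hM, ft_val hHVB D (f j) (hf j) v a ζ z hz hζ' hT'
          (fun t i => (hCHT K (W t) (n t) (z t)).2.2 i)]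
        exact le_ciSup (Set.finite_range fun j => v (eval _ (f j))).bddAbove j
    calc v (aeval ζ (Ft W n a E m F)) * M ≤
        cst v (Fintype.card ι + 1) * (Real.exp (∑ p, c₁ p v) * (S / M)) * M :=
          mul_le_mul_of_nonneg_right e3 hM0.le
      _ = _ := by field_simp
  -- the pairs
  have hval : ∀ i : IX n, ∃ ρ : K, ρ ≠ 0 ∧
      rp (RingHom.id K) (W i.1) (a i.1) (fun e => ζ ⟨i.1, e⟩) (lv (m i.1 i.2)) (m i.1 i.2) =
        ρ • (vz (m i.1 i.2) (z i.1)).xRep := fun i =>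
    hVAL K K (RingHom.id K) (W i.1) (W i.1) rfl (n i.1) (a i.1) _ (z i.1) (hT' i.1)
      (lv (m i.1 i.2)) (m i.1 i.2) (hDEGR.2.2 (n i.1) (m i.1 i.2))
  choose ρ hρ hρ' using hval
  have e4 : ∀ i : IX n, 1 ≤ Real.exp (c₂ i v) * (v (ρ i) * Mv v (xc (vz (m i.1 i.2) (z i.1)))) := by
    intro i
    have := hc₂v i v (a i.1) (fun e => ζ ⟨i.1, e⟩) (z i.1) (m i.1 i.2) (fun e => hζ' _) (hT' i.1)
      (hDEGR.2.2 (n i.1) (m i.1 i.2))
    rwa [hρ' i, max_smul, max_xRep] at this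
  have e5 : aeval ζ (Ft W n a E m F) = (∏ i, ρ i ^ E i) *
      hv (RingHom.id K) E F (fun i => (vz (m i.1 i.2) (z i.1)).xRep) := by
    rw [Ft_val hHVB]
    have : (fun i : IX n => rp (RingHom.id K) (W i.1) (a i.1) (fun e => ζ ⟨i.1, e⟩)
        (lv (m i.1 i.2)) (m i.1 i.2)) = fun i => ρ i • (vz (m i.1 i.2) (z i.1)).xRep := by
      funext i; exact hρ' i
    rw [this, hHVB.2.2.1 K K (RingHom.id K) (IX n) E F ρ _ hF]
  set V : ℝ := v (hv (RingHom.id K) E F (fun i => (vz (m i.1 i.2) (z i.1)).xRep)) with hV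
  have hV0 : 0 ≤ V := v.nonneg _
  have e6 : 1 ≤ Real.exp (∑ i, (E i : ℝ) * c₂ i v) * ((∏ i, v (ρ i) ^ E i) *
      ∏ i : IX n, Mv v (xc (vz (m i.1 i.2) (z i.1))) ^ E i) := by
    rw [Real.exp_sum, ← Finset.prod_mul_distrib, ← Finset.prod_mul_distrib]
    refine one_le_prod_real _ _ fun i _ => ?_
    rw [← mul_pow, Real.exp_nat_mul, ← mul_pow]
    exact one_le_pow₀ (e4 i)
  have e7 : (∏ i, v (ρ i) ^ E i) * V * M ≤
      cst v (Fintype.card ι + 1) * (Real.exp (∑ p, c₁ p v) * S) := by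
    refine le_trans (le_of_eq ?_) e2
    rw [e5, map_mul, map_prod]
    simp only [map_pow, hV]
  have hcst := cst_pos v hcard
  have hP0 : 0 ≤ ∏ i : IX n, Mv v (xc (vz (m i.1 i.2) (z i.1))) ^ E i :=
    Finset.prod_nonneg fun i _ => pow_nonneg (Mv_pos v _).le _
  rw [Real.exp_add, Real.exp_add, Real.exp_log hcst]
  set P : ℝ := ∏ i : IX n, Mv v (xc (vz (m i.1 i.2) (z i.1))) ^ E i with hP
  set Q : ℝ := ∏ i, v (ρ i) ^ E i with hQ
  set X₁ : ℝ := Real.exp (∑ i, (E i : ℝ) * c₂ i v) with hX₁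
  have hX₁0 : 0 < X₁ := Real.exp_pos _
  calc V * M ≤ (X₁ * (Q * P)) * (V * M) := le_mul_of_one_le_left (by positivity) e6
    _ = (Q * V * M) * (X₁ * P) := by ring
    _ ≤ (cst v (Fintype.card ι + 1) * (Real.exp (∑ p, c₁ p v) * S)) * (X₁ * P) :=
        mul_le_mul_of_nonneg_right e7 (by positivity)
    _ = _ := by ring

end main

theorem gEST (hHVB : G_HVB) (hVAL : G_VAL) (hLSZ : G_LSZ) (hCHT : G_CHT) (hDEGR : G_DEGR) :
    Pool.Agent.Helper5.UN.G_EST := by
  intro K _ _ _ B _ W _ n ι _ D f hf m E F hF hFt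
  obtain ⟨c₃, hc₃, hc₃0, hc₃v⟩ := local_est hHVB hVAL hLSZ hCHT hDEGR ι D f hf m E F hF hFt
  obtain ⟨c₄, hc₄, hc₄0, hc₄v⟩ := hHVB.2.2.2.2.2.1 K (IX n) E F hF
  refine ⟨PS (fun v => c₃ v + c₄ v), PS_nonneg (hc₃.add hc₄) fun v => add_nonneg (hc₃0 v) (hc₄0 v),
    fun z hz hne => ?_⟩
  set u : IX n → Fin 2 → K := fun i => (vz (m i.1 i.2) (z i.1)).xRep with hu
  set x : IX n → K := fun i => xc (z i.1 i.2) with hxx
  set R : AbsoluteValue K ℝ → ℝ := fun v => ((c₃ v + c₄ v) +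
    ∑ i : IX n, (E i : ℝ) * Real.log (Mv v (xc (vz (m i.1 i.2) (z i.1))))) -
      Real.log (v (hv (RingHom.id K) E F u)) with hR
  have hloc : ∀ v, Real.posLog ((∏ i, Mv v (x i)) ^ D / ⨆ j, v (eval x (f j))) ≤ R v := by
    intro v
    refine final (U := ∏ i : IX n, Mv v (xc (vz (m i.1 i.2) (z i.1))) ^ E i)
      (V := v (hv (RingHom.id K) E F u)) (one_le_pow₀ ?_) (Real.iSup_nonneg fun _ => v.nonneg _)
      (Finset.prod_pos fun i _ => pow_pos (Mv_pos v _) _) ?_ (v.pos hne) (hc₃v v z hz) ?_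
      (hc₃0 v) (hc₄0 v)
    · exact one_le_prod_real _ _ fun i _ => one_le_Mv v _
    · rw [Real.exp_sum]
      refine Finset.prod_congr rfl fun i _ => ?_
      rw [Real.exp_nat_mul, Real.exp_log (Mv_pos v _)]
    · refine (hc₄v v u).trans (le_of_eq ?_)
      congr 1
      refine Finset.prod_congr rfl fun i _ => ?_
      rw [hu]
      simp only [max_xRep]
  have hFSsum : FS (fun v => ∑ i : IX n, (E i : ℝ) * Real.log (Mv v (xc (vz (m i.1 i.2) (z i.1))))) :=
    FS.sum _ fun i _ => (FS_log_Mv _).const_mul _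
  have hFSR : FS R := (((hc₃.add hc₄).add hFSsum).sub (FS_log hne))
  have hPSR : PS R = PS (fun v => c₃ v + c₄ v) +
      ∑ i : IX n, (E i : ℝ) * hx (vz (m i.1 i.2) (z i.1)) := by
    rw [hR, PS_sub ((hc₃.add hc₄).add hFSsum) (FS_log hne), PS_log hne, sub_zero,
      PS_add (hc₃.add hc₄) hFSsum, PS_sum _ fun i _ => (FS_log_Mv _).const_mul _]
    congr 1
    refine Finset.sum_congr rfl fun i _ => ?_
    rw [PS_const_mul, PS_log_Mv]
    rfl
  have hFSf : FS (fun v => Real.posLog ((∏ i, Mv v (x i)) ^ D / ⨆ j, v (eval x (f j)))) := by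
    refine hFSR.mono fun v _ hv => ?_
    refine le_antisymm ?_ Real.posLog_nonneg
    rw [← hv]
    exact hloc v
  have := PS_mono hFSf hFSR hloc
  rw [hPSR] at this
  have h0 : cH D f x = PS (fun v => Real.posLog ((∏ i, Mv v (x i)) ^ D / ⨆ j, v (eval x (f j)))) := rfl
  rw [h0]
  linarith

end

end Pool.Agent.Helper51.UN.EST
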